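import Pool.Agent.W111.LAR.Cay
import Pool.Agent.W111.LAR.Top

set_option autoImplicit false

/-!
Linear arboricity of Cayley graphs: generators in pairs.
-/

namespace Pool.Agent.W111.LAR

open Finset SimpleGraph H931R3.LA

variable {Γ : Type} [Group Γ]

/-- The Cayley graph of a pair of generators. -/
def pgr (s t : Γ) : SimpleGraph Γ where
  Adj g h := g ≠ h ∧ (h = g * s ∨ h = g * t ∨ g = h * s ∨ g = h * t)
  symm.symm g h hh := ⟨hh.1.symm, by tauto⟩
  loopless.irrefl g h := h.1 rfl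

/-- A pair which is closed under inverses. -/
def ClPair (s t : Γ) : Prop := t = s⁻¹ ∨ (s⁻¹ = s ∧ t⁻¹ = t)

theorem pgr_adj {s t : Γ} (h : ClPair s t) (g g' : Γ) :
    (pgr s t).Adj g g' → (g' = g * s ∨ g' = g * t) := by
  rintro ⟨_, h1 | h1 | h1 | h1⟩
  · exact Or.inl h1
  · exact Or.inr h1
  · rcases h with h | ⟨h2, h3⟩
    · right
      rw [h, h1]; group
    · left
      rw [h1]
      nth_rewrite 2 [← h2]
      group
  · rcases h with h | ⟨h2, h3⟩
    · left
      rw [h1, h]; group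
    · right
      rw [h1]
      nth_rewrite 2 [← h3]
      group

theorem pgr_deg [Finite Γ] {s t : Γ} (h : ClPair s t) (g : Γ) :
    ((pgr s t).neighborSet g).ncard ≤ 2 := by
  have hsub : (pgr s t).neighborSet g ⊆ {g * s, g * t} := by
    intro g' hg'
    exact pgr_adj h g g' hg'
  refine le_trans (Set.ncard_le_ncard hsub (Set.toFinite _)) ?_
  exact Set.ncard_insert_le _ _ |>.trans (by simp)

theorem pgr_size [Finite Γ] {s t : Γ} (g : Γ) :
    Nat.card (Subgroup.closure {s, t} : Subgroup Γ) ≤ csize (pgr s t) g := by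
  have h0 : ∀ g g' : Γ, g' = g * s ∨ g' = g * t → (pgr s t).Reachable g g' := by
    intro g g' h
    by_cases hg : g = g'
    · rw [hg]
    · exact SimpleGraph.Adj.reachable ⟨hg, by tauto⟩
  have h1 : ∀ x ∈ (Subgroup.closure {s, t} : Subgroup Γ), ∀ g : Γ,
      (pgr s t).Reachable g (g * x) := by
    intro x hx
    refine Subgroup.closure_induction (p := fun x _ => ∀ g : Γ, (pgr s t).Reachable g (g * x))
      ?_ ?_ ?_ ?_ hx
    · rintro x (rfl | hx) g
      · exact h0 _ _ (Or.inl rfl)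
      · rw [Set.mem_singleton_iff] at hx
        subst hx
        exact h0 _ _ (Or.inr rfl)
    · intro g; simp
    · intro x y _ _ hx hy g
      rw [← mul_assoc]
      exact (hx g).trans (hy (g * x))
    · intro x _ hx g
      have := hx (g * x⁻¹)
      rw [inv_mul_cancel_right] at this
      exact this.symm
  have h2 : (fun x => g * x) '' ((Subgroup.closure {s, t} : Subgroup Γ) : Set Γ) ⊆
      {h | (pgr s t).Reachable g h} := by
    rintro _ ⟨x, hx, rfl⟩
    exact h1 x hx g
  have h3 := Set.ncard_le_ncard h2 (Set.toFinite _)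
  rw [Set.ncard_image_of_injective _ (mul_right_injective g)] at h3
  exact h3

/-- Halving a set with a fixed point free involution. -/
theorem halve2 {α : Type} [Finite α] [DecidableEq α] (S : Finset α) (σ : α → α)
    (hσ : ∀ s ∈ S, σ s ∈ S) (hσ2 : ∀ s ∈ S, σ (σ s) = s) (hno : ∀ s ∈ S, σ s ≠ s) :
    ∃ T ⊆ S, (∀ s ∈ S, s ∈ T ∨ σ s ∈ T) ∧ S.card = 2 * T.card ∧
      ∀ f : α → ℝ, (∀ s ∈ S, f (σ s) = f s) → ∑ s ∈ S, f s = 2 * ∑ s ∈ T, f s := by
  classical
  have := Fintype.ofFinite α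
  let code : α → ℕ := fun v => (Fintype.equivFin α v : ℕ)
  have hcode : ∀ v w, code v = code w → v = w := fun v w h =>
    (Fintype.equivFin α).injective (Fin.ext h)
  let T := S.filter (fun s => code s < code (σ s))
  have hne : ∀ s ∈ S, code s ≠ code (σ s) := fun s hs h => hno s hs (hcode _ _ h).symm
  have hS : ∀ f : α → ℝ, (∀ s ∈ S, f (σ s) = f s) → ∑ s ∈ S, f s = 2 * ∑ s ∈ T, f s := by
    intro f hf
    rw [← sum_filter_add_sum_filter_not S (fun s => code s < code (σ s)), two_mul]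
    congr 1
    symm
    refine sum_bij (fun s _ => σ s) ?_ ?_ ?_ ?_
    · intro s hs
      obtain ⟨h1, h2⟩ := mem_filter.1 hs
      refine mem_filter.2 ⟨hσ s h1, ?_⟩
      rw [hσ2 s h1]
      omega
    · intro s hs s' hs' h
      rw [← hσ2 s (mem_filter.1 hs).1, h, hσ2 s' (mem_filter.1 hs').1]
    · intro s hs
      obtain ⟨h1, h2⟩ := mem_filter.1 hs
      refine ⟨σ s, mem_filter.2 ⟨hσ s h1, ?_⟩, hσ2 s h1⟩
      have := hne s h1
      rw [hσ2 s h1]
      omega
    · intro s hs
      exact (hf s (mem_filter.1 hs).1).symm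
  refine ⟨T, filter_subset _ _, ?_, ?_, hS⟩
  · intro s hs
    by_cases h : code s < code (σ s)
    · left
      exact mem_filter.2 ⟨hs, h⟩
    · right
      refine mem_filter.2 ⟨hσ s hs, ?_⟩
      have := hne s hs
      rw [hσ2 s hs]
      omega
  · have h1 := hS (fun _ => 1) (fun _ _ => rfl)
    simp only [sum_const, nsmul_eq_mul, mul_one] at h1
    exact_mod_cast h1

/-- Cayley graphs whose generators are paired. -/
theorem cay_pair [Finite Γ] (S : Finset Γ) (G : SimpleGraph Γ)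
    (hG : ∀ g h, G.Adj g h ↔ g⁻¹ * h ∈ S) (σ : Γ → Γ)
    (hσ : ∀ s ∈ S, σ s ∈ S ∧ σ (σ s) = s ∧ σ s ≠ s ∧ ClPair s (σ s))
    (hsum : ∑ s ∈ S, (1 : ℝ) / Nat.card (Subgroup.closure {s, σ s} : Subgroup Γ) ≤ 1) :
    Cov G (S.card / 2 + 1) := by
  classical
  obtain ⟨T, hTS, hT, hcard, hf⟩ := halve2 S σ (fun s hs => (hσ s hs).1)
    (fun s hs => (hσ s hs).2.1) (fun s hs => (hσ s hs).2.2.1)
  have hinv : ∀ s ∈ S, s⁻¹ ∈ S := by
    intro s hs
    have h1 : G.Adj 1 s := (hG 1 s).2 (by simpa using hs)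
    have h2 := (hG s 1).1 h1.symm
    simpa using h2
  have hGT : G = ⨆ s : T, pgr s.1 (σ s.1) := by
    ext g h
    rw [iSup_adj]
    constructor
    · intro hh
      have h1 : g⁻¹ * h ∈ S := (hG g h).1 hh
      rcases hT _ h1 with h2 | h2
      · exact ⟨⟨_, h2⟩, hh.ne, Or.inl (by simp)⟩
      · exact ⟨⟨_, h2⟩, hh.ne, Or.inr (Or.inl (by simp [(hσ _ h1).2.1]))⟩
    · rintro ⟨s, hs⟩
      rw [hG]
      rcases pgr_adj (hσ s.1 (hTS s.2)).2.2.2 g h hs with h1 | h1
      · rw [h1, inv_mul_cancel_left]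
        exact hTS s.2
      · rw [h1, inv_mul_cancel_left]
        exact (hσ s.1 (hTS s.2)).1
  have h1 := cov_of_load (fun s : T => pgr s.1 (σ s.1))
    (fun s g => pgr_deg (hσ s.1 (hTS s.2)).2.2.2 g) (by
      intro g
      refine le_trans ?_ hsum
      rw [hf (fun s => 1 / Nat.card (Subgroup.closure {s, σ s} : Subgroup Γ)) (fun s hs => by
        rw [(hσ s hs).2.1, Set.pair_comm]), mul_sum, ← sum_coe_sort T]
      refine sum_le_sum fun s _ => ?_
      have hpos : (0 : ℝ) < Nat.card (Subgroup.closure {s.1, σ s.1} : Subgroup Γ) := by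
        exact_mod_cast Nat.card_pos
      split_ifs with h
      · have h2 : (Nat.card (Subgroup.closure {s.1, σ s.1} : Subgroup Γ) : ℝ) ≤
            csize (pgr s.1 (σ s.1)) g := by
          exact_mod_cast pgr_size g
        rw [mul_one_div]
        exact div_le_div_of_nonneg_left (by norm_num) hpos h2
      · positivity)
  rw [Fintype.card_coe, ← hGT] at h1
  have h2 : S.card / 2 = T.card := by omega
  rwa [h2]

end Pool.Agent.W111.LAR
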