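import Pool.Agent.W111.LAR.Sel

set_option autoImplicit false

/-!
The criterion: graphs of maximum degree two `H i` whose cyclic components are not too short can be
covered by one more linear forest.
-/

namespace Pool.Agent.W111.LAR

open Finset SimpleGraph H931R3.LA

/-- The component of `v` is a cycle: all its vertices have degree two. -/
def Cyc {V : Type} (H : SimpleGraph V) (v : V) : Prop :=
  ∀ w, H.Reachable v w → (H.neighborSet w).ncard = 2

/-- The number of vertices of the component of `v`. -/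
noncomputable def csize {V : Type} (H : SimpleGraph V) (v : V) : ℕ :=
  {w | H.Reachable v w}.ncard

/-- A representative of the component of `v`. -/
noncomputable def rep {V : Type} (H : SimpleGraph V) (v : V) : V :=
  Quot.out (H.connectedComponentMk v)

theorem rep_reach {V : Type} (H : SimpleGraph V) (v : V) : H.Reachable (rep H v) v :=
  ConnectedComponent.exact (Quot.out_eq (H.connectedComponentMk v))

theorem rep_eq {V : Type} {H : SimpleGraph V} {v w : V} (h : H.Reachable v w) :
    rep H v = rep H w := by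
  unfold rep
  rw [ConnectedComponent.sound h]

theorem reach_of_rep {V : Type} {H : SimpleGraph V} {v w : V} (h : rep H v = rep H w) :
    H.Reachable v w :=
  (rep_reach H v).symm.trans (h ▸ rep_reach H w)

theorem Cyc.trans {V : Type} {H : SimpleGraph V} {v w : V} (h : Cyc H v)
    (hvw : H.Reachable v w) : Cyc H w := fun u hu => h u (hvw.trans hu)

theorem csize_eq {V : Type} {H : SimpleGraph V} {v w : V} (h : H.Reachable v w) :
    csize H v = csize H w := by
  unfold csize
  congr 1
  ext u
  exact ⟨fun hu => h.symm.trans hu, fun hu => h.trans hu⟩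

theorem csize_pos {V : Type} [Finite V] (H : SimpleGraph V) (v : V) : 0 < csize H v :=
  (Set.ncard_pos (Set.toFinite _)).2 ⟨v, Reachable.refl v⟩

/-- In a graph of maximum degree two, a cycle is a whole component. -/
theorem closed_cycle {V : Type} [Finite V] {F G : SimpleGraph V} (hFG : F ≤ G)
    (hdeg : ∀ v, (G.neighborSet v).ncard ≤ 2) {v : V} {c : F.Walk v v} (hc : c.IsCycle) :
    ∀ w, G.Reachable v w → w ∈ c.support ∧ (G.neighborSet w).ncard = 2 ∧
      ∀ u, G.Adj w u → F.Adj w u := by
  have key : ∀ w ∈ c.support, (G.neighborSet w).ncard = 2 ∧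
      ∀ u, G.Adj w u → u ∈ c.support ∧ F.Adj w u := by
    intro w hw
    have h2 := hc.ncard_neighborSet_toSubgraph_eq_two hw
    have hsub : c.toSubgraph.neighborSet w ⊆ G.neighborSet w := by
      intro u hu
      exact hFG (hu : c.toSubgraph.Adj w u).adj_sub
    have heq : c.toSubgraph.neighborSet w = G.neighborSet w :=
      Set.eq_of_subset_of_ncard_le hsub (by rw [h2]; exact hdeg w) (Set.toFinite _)
    refine ⟨by rw [← heq, h2], fun u hu => ?_⟩
    have h3 : u ∈ c.toSubgraph.neighborSet w := by rw [heq]; exact hu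
    have h4 : c.toSubgraph.Adj w u := h3
    refine ⟨?_, h4.adj_sub⟩
    have := h4.snd_mem
    rwa [Walk.mem_verts_toSubgraph] at this
  intro w hw
  have hmem : w ∈ c.support := by
    obtain ⟨p⟩ := hw
    have : ∀ {x y : V} (q : G.Walk x y), x ∈ c.support → y ∈ c.support := by
      intro x y q
      induction q with
      | nil => exact id
      | cons h _ ih => exact fun hx => ih ((key _ hx).2 _ h).1
    exact this p (Walk.start_mem_support c)
  exact ⟨hmem, (key w hmem).1, fun u hu => ((key w hmem).2 u hu).2⟩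

theorem cov_of_type {V τ : Type} [Finite τ] {G : SimpleGraph V} (F : τ → SimpleGraph V)
    (hF : ∀ t, IsLF (F t)) (hG : (⨆ t, F t) = G) : Cov G (Nat.card τ) := by
  refine ⟨fun i => F ((Finite.equivFin τ).symm i), fun i => hF _, ?_⟩
  rw [← hG]
  exact (Finite.equivFin τ).symm.iSup_comp (g := F)


section core

variable {V κ : Type} (H : κ → SimpleGraph V)

/-- The edges of the cyclic components, with their index. -/
abbrev EE : Type := {p : κ × Sym2 V // p.2 ∈ (H p.1).edgeSet ∧ Cyc (H p.1) p.2.out.1}

/-- The cyclic components. -/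
abbrev II : Type := {p : κ × V // Cyc (H p.1) p.2 ∧ rep (H p.1) p.2 = p.2}

variable {H}

/-- First end. -/
noncomputable def aa (e : EE H) : V := e.1.2.out.1

/-- Second end. -/
noncomputable def bb (e : EE H) : V := e.1.2.out.2

theorem mk_ends (e : EE H) : s(aa e, bb e) = e.1.2 := Quot.out_eq e.1.2

theorem adj_ends (e : EE H) : (H e.1.1).Adj (aa e) (bb e) := by
  have := e.2.1
  rw [← mk_ends e] at this
  exact this

theorem ends_ne (e : EE H) : aa e ≠ bb e := (adj_ends e).ne

/-- The cyclic component of an edge. -/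
noncomputable def cl (e : EE H) : II H :=
  ⟨(e.1.1, rep (H e.1.1) (aa e)), e.2.2.trans (rep_reach _ _).symm, rep_eq (rep_reach _ _)⟩

theorem ends_reach (e : EE H) (v : V) (h : aa e = v ∨ bb e = v) :
    (H e.1.1).Reachable v (aa e) := by
  rcases h with h | h
  · rw [h]
  · rw [← h]; exact (adj_ends e).symm.reachable

theorem cl_iff (e : EE H) (c : II H) :
    cl e = c ↔ e.1.1 = c.1.1 ∧ (H c.1.1).Reachable (aa e) c.1.2 := by
  constructor
  · rintro rfl
    exact ⟨rfl, (rep_reach _ _).symm⟩
  · rintro ⟨h1, h2⟩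
    apply Subtype.ext
    refine Prod.ext h1 ?_
    show rep (H e.1.1) (aa e) = c.1.2
    rw [h1, ← c.2.2]
    exact rep_eq h2

variable [Fintype V] [DecidableEq V] [Fintype κ] [DecidableEq κ] [Fintype (EE H)]
  [DecidableEq (EE H)]

theorem cnt (i : κ) (v : V) (hcyc : Cyc (H i) v) :
    ((star aa bb (univ : Finset (EE H)) v).filter (fun e => e.1.1 = i)).card = 2 := by
  classical
  rw [← hcyc v (Reachable.refl v), Set.ncard_eq_toFinset_card' ((H i).neighborSet v)]
  symm
  refine card_bij (fun w hw => (⟨(i, s(v, w)), ?_, ?_⟩ : EE H)) ?_ ?_ ?_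
  · rw [Set.mem_toFinset] at hw
    exact hw
  · rw [Set.mem_toFinset] at hw
    have h1 : s((s(v, w) : Sym2 V).out.1, (s(v, w) : Sym2 V).out.2) = s(v, w) :=
      Quot.out_eq _
    rcases Sym2.eq_iff.1 h1 with ⟨h2, _⟩ | ⟨h2, _⟩
    · rw [h2]; exact hcyc
    · rw [h2]; exact hcyc.trans (SimpleGraph.Adj.reachable hw)
  · intro w hw
    rw [mem_filter, star, mem_filter]
    refine ⟨⟨mem_univ _, ?_⟩, rfl⟩
    have h1 : s((s(v, w) : Sym2 V).out.1, (s(v, w) : Sym2 V).out.2) = s(v, w) :=
      Quot.out_eq _
    rcases Sym2.eq_iff.1 h1 with ⟨h2, _⟩ | ⟨_, h2⟩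
    · exact Or.inl h2
    · exact Or.inr h2
  · intro w hw w' hw' h
    have h1 : s(v, w) = s(v, w') := congrArg (fun e : EE H => e.1.2) h
    exact Sym2.congr_right.1 h1
  · intro e he
    rw [mem_filter, star, mem_filter] at he
    obtain ⟨⟨_, hinc⟩, hi⟩ := he
    subst hi
    rcases hinc with h | h
    · refine ⟨bb e, ?_, ?_⟩
      · rw [Set.mem_toFinset, ← h]; exact adj_ends e
      · apply Subtype.ext
        refine Prod.ext rfl ?_
        show s(v, bb e) = e.1.2
        rw [← h, mk_ends]
    · refine ⟨aa e, ?_, ?_⟩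
      · rw [Set.mem_toFinset, ← h]; exact (adj_ends e).symm
      · apply Subtype.ext
        refine Prod.ext rfl ?_
        show s(v, aa e) = e.1.2
        rw [← h, Sym2.eq_swap, mk_ends]

theorem cnt0 (i : κ) (v : V) (hcyc : ¬ Cyc (H i) v) :
    (star aa bb (univ : Finset (EE H)) v).filter (fun e => e.1.1 = i) = ∅ := by
  rw [filter_eq_empty_iff]
  intro e he hi
  obtain ⟨_, hinc⟩ := mem_filter.1 he
  subst hi
  exact hcyc (e.2.2.trans (ends_reach e v hinc).symm)

/-- The number of edges of a cyclic component. -/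
theorem class_card [DecidableEq (II H)] (c : II H) :
    (univ.filter (fun e : EE H => cl e = c)).card = csize (H c.1.1) c.1.2 := by
  classical
  set U : Finset V := {w | (H c.1.1).Reachable c.1.2 w}.toFinset with hU
  have memU : ∀ w, w ∈ U ↔ (H c.1.1).Reachable c.1.2 w := fun w => by
    rw [hU, Set.mem_toFinset, Set.mem_ofPred_eq]
  have hUc : U.card = csize (H c.1.1) c.1.2 := by
    rw [csize, Set.ncard_eq_toFinset_card', hU]
  have h1 := dc_closed aa bb ends_ne (fun e : EE H => if cl e = c then (1 : ℝ) else 0) U (by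
    intro e he
    have hce : cl e = c := by
      by_contra h
      simp [h] at he
    obtain ⟨h1, h2⟩ := (cl_iff e c).1 hce
    have h3 := adj_ends e
    rw [h1] at h3
    rw [memU, memU]
    exact ⟨fun h => h.trans h3.reachable, fun h => h.trans h3.symm.reachable⟩)
  have h2 : ∀ v ∈ U, ∑ e ∈ star aa bb (univ : Finset (EE H)) v,
      (if cl e = c then (1 : ℝ) else 0) = 2 := by
    intro v hv
    have hv' := (memU v).1 hv
    rw [← sum_filter]
    have h3 : (star aa bb (univ : Finset (EE H)) v).filter (fun e => cl e = c) =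
        (star aa bb univ v).filter (fun e => e.1.1 = c.1.1) := by
      refine filter_congr fun e he => ?_
      obtain ⟨_, hinc⟩ := mem_filter.1 he
      rw [cl_iff]
      refine ⟨fun h => h.1, fun h => ⟨h, ?_⟩⟩
      have h4 := ends_reach e v hinc
      rw [h] at h4
      exact h4.symm.trans hv'.symm
    rw [h3, sum_const, cnt _ _ (c.2.1.trans hv')]
    norm_num
  rw [sum_congr rfl h2, sum_const, nsmul_eq_mul] at h1
  have h5 : ∑ e ∈ univ.filter (fun e : EE H => aa e ∈ U), (if cl e = c then (1 : ℝ) else 0) =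
      ((univ.filter (fun e : EE H => cl e = c)).card : ℝ) := by
    rw [← sum_filter]
    have : (univ.filter (fun e : EE H => aa e ∈ U)).filter (fun e => cl e = c) =
        univ.filter (fun e => cl e = c) := by
      ext e
      simp only [mem_filter, mem_univ, true_and]
      refine ⟨fun h => h.2, fun h => ⟨?_, h⟩⟩
      rw [memU]
      exact ((cl_iff e c).1 h).2.symm
    rw [this]
    simp
  rw [h5, hUc] at h1
  have h6 : (csize (H c.1.1) c.1.2 : ℝ) = ((univ.filter (fun e : EE H => cl e = c)).card : ℝ) := by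
    linarith
  exact_mod_cast h6.symm

end core

/-- Assembly: breaking all cyclic components by a selection contained in a linear forest `Q`. -/
theorem assemble {V κ : Type} [Finite V] [Fintype κ] {H : κ → SimpleGraph V}
    (hdeg : ∀ i v, ((H i).neighborSet v).ncard ≤ 2) (s : II H → EE H) (hs : ∀ c, cl (s c) = c)
    (Q : SimpleGraph V) (hQ : IsLF Q) (hsel : ∀ c, Q.Adj (aa (s c)) (bb (s c))) :
    Cov (Q ⊔ ⨆ i, H i) (Fintype.card κ + 1) := by
  classical
  let F : Option κ → SimpleGraph V := fun t => match t with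
    | none => Q
    | some i => (H i).deleteEdges {d | ∃ c : II H, c.1.1 = i ∧ d = (s c).1.2}
  have hcard : Nat.card (Option κ) = Fintype.card κ + 1 := by
    rw [Nat.card_eq_fintype_card, Fintype.card_option]
  rw [← hcard]
  have hsi : ∀ c : II H, (s c).1.1 = c.1.1 := fun c => ((cl_iff (s c) c).1 (hs c)).1
  refine cov_of_type F ?_ ?_
  · intro t
    cases t with
    | none => exact hQ
    | some i =>
      have hle : F (some i) ≤ H i := deleteEdges_le _
      refine ⟨?_, fun v => le_trans (Set.ncard_le_ncard (fun u hu => hle hu) (Set.toFinite _))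
        (hdeg i v)⟩
      intro v c hc
      have hcl' := closed_cycle hle (hdeg i) hc
      have hcyc : Cyc (H i) v := fun w hw => (hcl' w hw).2.1
      let c0 : II H := ⟨(i, rep (H i) v), hcyc.trans (rep_reach _ _).symm, rep_eq (rep_reach _ _)⟩
      have h1 := (cl_iff (s c0) c0).1 (hs c0)
      have h2 : (H i).Reachable v (aa (s c0)) := (rep_reach (H i) v).symm.trans h1.2.symm
      have h3 : (H i).Adj (aa (s c0)) (bb (s c0)) := by
        have := adj_ends (s c0)
        rw [hsi c0] at this
        exact this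
      have h4 := (hcl' _ h2).2.2 _ h3
      have h5 : (F (some i)).Adj (aa (s c0)) (bb (s c0)) ↔ (H i).Adj (aa (s c0)) (bb (s c0)) ∧
          s(aa (s c0), bb (s c0)) ∉ {d | ∃ c : II H, c.1.1 = i ∧ d = (s c).1.2} := deleteEdges_adj
      exact (h5.1 h4).2 ⟨c0, rfl, mk_ends _⟩
  · ext u v
    simp only [iSup_adj, sup_adj]
    constructor
    · rintro ⟨t, ht⟩
      cases t with
      | none => exact Or.inl ht
      | some i => exact Or.inr ⟨i, deleteEdges_le _ ht⟩
    · rintro (h | ⟨i, hi⟩)
      · exact ⟨none, h⟩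
      · by_cases hd : s(u, v) ∈ {d | ∃ c : II H, c.1.1 = i ∧ d = (s c).1.2}
        · obtain ⟨c, _, hc2⟩ := hd
          refine ⟨none, ?_⟩
          rw [← mk_ends] at hc2
          rcases Sym2.eq_iff.1 hc2 with ⟨h1, h2⟩ | ⟨h1, h2⟩
          · rw [h1, h2]; exact hsel c
          · rw [h1, h2]; exact (hsel c).symm
        · exact ⟨some i, deleteEdges_adj.2 ⟨hi, hd⟩⟩

open Classical in
/-- The criterion. -/
theorem cov_of_load {V κ : Type} [Finite V] [Fintype κ] (H : κ → SimpleGraph V)
    (hdeg : ∀ i v, ((H i).neighborSet v).ncard ≤ 2)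
    (hload : ∀ v, ∑ i, (if Cyc (H i) v then (2 : ℝ) / csize (H i) v else 0) ≤ 1) :
    Cov (⨆ i, H i) (Fintype.card κ + 1) := by
  have := Fintype.ofFinite V
  have : Fintype (EE H) := Fintype.ofFinite (EE H)
  have : Fintype (II H) := Fintype.ofFinite (II H)
  let x : EE H → ℝ := fun e => 1 / csize (H e.1.1) (aa e)
  have hclass : ∀ c : II H, ∑ e ∈ univ.filter (fun e => cl e = c), x e = 1 := by
    intro c
    have hx : ∀ e ∈ univ.filter (fun e : EE H => cl e = c), x e = 1 / csize (H c.1.1) c.1.2 := by
      intro e he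
      obtain ⟨h1, h2⟩ := (cl_iff e c).1 (mem_filter.1 he).2
      show (1 : ℝ) / csize (H e.1.1) (aa e) = _
      rw [h1, csize_eq h2]
    rw [sum_congr rfl hx, sum_const, nsmul_eq_mul, class_card]
    have hpos : (0 : ℝ) < csize (H c.1.1) c.1.2 := by exact_mod_cast csize_pos _ _
    field_simp
  have hvert : ∀ v, ∑ e ∈ star aa bb univ v, x e ≤ 1 := by
    intro v
    refine le_trans (le_of_eq ?_) (hload v)
    rw [← sum_fiberwise (star aa bb univ v) (fun e : EE H => e.1.1) x]
    refine sum_congr rfl fun i _ => ?_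
    by_cases hcyc : Cyc (H i) v
    · rw [if_pos hcyc]
      have hx : ∀ e ∈ (star aa bb (univ : Finset (EE H)) v).filter (fun e => e.1.1 = i), x e =
          1 / csize (H i) v := by
        intro e he
        obtain ⟨he1, he2⟩ := mem_filter.1 he
        obtain ⟨_, hinc⟩ := mem_filter.1 he1
        show (1 : ℝ) / csize (H e.1.1) (aa e) = _
        rw [← csize_eq (ends_reach e v hinc), he2]
      rw [sum_congr rfl hx, sum_const, cnt i v hcyc, nsmul_eq_mul]
      push_cast
      ring
    · rw [if_neg hcyc, cnt0 i v hcyc, sum_empty]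
  have hx0 : ∀ e, 0 ≤ x e := fun e => by
    show (0 : ℝ) ≤ 1 / csize (H e.1.1) (aa e)
    positivity
  obtain ⟨s, hs, hLF⟩ := selection aa bb ends_ne cl x hx0 hclass hvert
  have hmain := assemble hdeg s hs (selGraph aa bb s) hLF
    (fun c => ⟨ends_ne _, c, Or.inl ⟨rfl, rfl⟩⟩)
  have hle : selGraph aa bb s ≤ ⨆ i, H i := by
    rintro u v ⟨_, c, hc⟩
    rw [iSup_adj]
    refine ⟨(s c).1.1, ?_⟩
    rcases hc with ⟨h1, h2⟩ | ⟨h1, h2⟩
    · rw [← h1, ← h2]; exact adj_ends _
    · rw [← h1, ← h2]; exact (adj_ends _).symm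
  rwa [sup_eq_right.2 hle] at hmain

end Pool.Agent.W111.LAR
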