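import Pool.Agent.W111.LAR.Girth
import Pool.Agent.H931R2.Haxell

set_option autoImplicit false

/-!
The version with a matching: `P ⊔ ⨆ i, H i` with cyclic components of size at least `12 m - 8`
is covered by `m + 1` linear forests.
-/

namespace Pool.Agent.W111.LAR

open Finset SimpleGraph H931R3.LA

/-- The partner of a vertex in a matching. -/
theorem exists_key {V : Type} [Finite V] (P : SimpleGraph V)
    (hP : ∀ v, (P.neighborSet v).ncard ≤ 1) :
    ∃ key : V → ℕ, (∀ v w, P.Adj v w → key v = key w) ∧
      ∀ v w, key v = key w → v = w ∨ P.Adj v w := by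
  classical
  have := Fintype.ofFinite V
  have huniq : ∀ v w w', P.Adj v w → P.Adj v w' → w = w' := fun v w w' h h' =>
    (Set.ncard_le_one (Set.toFinite _)).1 (hP v) w h w' h'
  let pt : V → V := fun v => if h : ∃ w, P.Adj v w then h.choose else v
  have pt1 : ∀ v w, P.Adj v w → pt v = w := by
    intro v w h
    have hex : ∃ w, P.Adj v w := ⟨w, h⟩
    have : pt v = hex.choose := dif_pos hex
    rw [this]
    exact huniq v _ _ hex.choose_spec h
  have pt2 : ∀ v, P.Adj v (pt v) ∨ pt v = v := by
    intro v
    by_cases hex : ∃ w, P.Adj v w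
    · left
      have : pt v = hex.choose := dif_pos hex
      rw [this]
      exact hex.choose_spec
    · right
      exact dif_neg hex
  let code : V → ℕ := fun v => (Fintype.equivFin V v : ℕ)
  have hcode : ∀ v w, code v = code w → v = w := fun v w h =>
    (Fintype.equivFin V).injective (Fin.ext h)
  refine ⟨fun v => min (code v) (code (pt v)), ?_, ?_⟩
  · intro v w h
    show min (code v) (code (pt v)) = min (code w) (code (pt w))
    rw [pt1 v w h, pt1 w v h.symm, min_comm]
  · intro v w h
    have h' : min (code v) (code (pt v)) = min (code w) (code (pt w)) := h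
    rcases min_choice (code v) (code (pt v)) with h1 | h1 <;>
    rcases min_choice (code w) (code (pt w)) with h2 | h2 <;> rw [h1, h2] at h' <;>
    have h3 := hcode _ _ h'
    · exact Or.inl h3
    · rcases pt2 w with h4 | h4
      · right
        rw [h3]
        exact h4.symm
      · left
        rw [h3, h4]
    · rcases pt2 v with h4 | h4
      · right
        rw [← h3]
        exact h4
      · left
        rw [← h3, h4]
    · rcases pt2 v with h4 | h4
      · rcases pt2 w with h5 | h5
        · left
          refine huniq (pt v) v w h4.symm ?_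
          rw [h3]
          exact h5.symm
        · right
          rw [← h5, ← h3]
          exact h4
      · rcases pt2 w with h5 | h5
        · right
          rw [← h4, h3]
          exact h5.symm
        · left
          rw [← h4, h3, h5]

section

variable {V κ : Type} {H : κ → SimpleGraph V}

/-- `v` is the lower end of `e`. -/
def upAt (key : V → ℕ) (e : EE H) (v : V) : Prop :=
  (aa e = v ∧ key v < key (bb e)) ∨ (bb e = v ∧ key v < key (aa e))

/-- Two edges in conflict. -/
def conf (P : SimpleGraph V) (key : V → ℕ) (e f : EE H) : Prop :=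
  cl e ≠ cl f ∧ ((∃ v, (aa e = v ∨ bb e = v) ∧ (aa f = v ∨ bb f = v)) ∨
    ∃ v w, P.Adj v w ∧ upAt key e v ∧ upAt key f w)

theorem conf_symm {P : SimpleGraph V} {key : V → ℕ} {e f : EE H} (h : conf P key e f) :
    conf P key f e := by
  refine ⟨h.1.symm, ?_⟩
  rcases h.2 with ⟨v, h1, h2⟩ | ⟨v, w, h1, h2, h3⟩
  · exact Or.inl ⟨v, h2, h1⟩
  · exact Or.inr ⟨w, v, h1.symm, h3, h2⟩

theorem upAt.inc {key : V → ℕ} {e : EE H} {v : V} (h : upAt key e v) : aa e = v ∨ bb e = v := by
  rcases h with h | h
  · exact Or.inl h.1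
  · exact Or.inr h.1

theorem upAt.unique {key : V → ℕ} {e : EE H} {v w : V} (h : upAt key e v) (h' : upAt key e w) :
    v = w := by
  rcases h with ⟨rfl, h1⟩ | ⟨rfl, h1⟩ <;> rcases h' with ⟨h2, h3⟩ | ⟨h2, h3⟩
  · exact h2
  · rw [← h2] at h3; omega
  · rw [← h2] at h3; omega
  · exact h2

open Classical in
theorem conf_card [Fintype V] [Fintype κ] [Fintype (EE H)] (P : SimpleGraph V)
    (hP : ∀ v, (P.neighborSet v).ncard ≤ 1) (key : V → ℕ) (f : EE H) :
    (univ.filter (fun e => conf P key e f)).card + 4 ≤ 6 * Fintype.card κ := by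
  have hm : 1 ≤ Fintype.card κ := Fintype.card_pos_iff.2 ⟨f.1.1⟩
  have hcnt : ∀ (i : κ) (v : V),
      ((star aa bb (univ : Finset (EE H)) v).filter (fun e => e.1.1 = i)).card ≤ 2 := by
    intro i v
    by_cases h : Cyc (H i) v
    · exact (cnt i v h).le
    · rw [cnt0 i v h]; simp
  have hstar : ∀ v, (star aa bb (univ : Finset (EE H)) v).card ≤ 2 * Fintype.card κ := by
    intro v
    rw [card_eq_sum_card_fiberwise (f := fun e : EE H => e.1.1) (t := univ)
      (fun e _ => mem_univ _)]
    refine le_trans (sum_le_sum fun i _ => hcnt i v) ?_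
    rw [sum_const, smul_eq_mul, card_univ, mul_comm]
  have hside : ∀ v, (aa f = v ∨ bb f = v) →
      ((star aa bb (univ : Finset (EE H)) v).filter (fun e => cl e ≠ cl f)).card + 2 ≤
        2 * Fintype.card κ := by
    intro v hv
    have hsub : (star aa bb (univ : Finset (EE H)) v).filter (fun e => cl e ≠ cl f) ⊆
        (star aa bb (univ : Finset (EE H)) v).filter (fun e => ¬ e.1.1 = f.1.1) := by
      intro e he
      obtain ⟨he1, he2⟩ := mem_filter.1 he
      refine mem_filter.2 ⟨he1, fun hef => he2 ?_⟩
      obtain ⟨_, hinc⟩ := mem_filter.1 he1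
      rw [cl_iff]
      refine ⟨hef, ?_⟩
      have h1 := ends_reach e v hinc
      have h2 := ends_reach f v hv
      rw [hef] at h1
      exact h1.symm.trans (h2.trans (rep_reach _ _).symm)
    have h1 := card_le_card hsub
    have h2 : ((star aa bb (univ : Finset (EE H)) v).filter (fun e => ¬ e.1.1 = f.1.1)).card ≤
        2 * (Fintype.card κ - 1) := by
      have h3 : ((star aa bb (univ : Finset (EE H)) v).filter (fun e => ¬ e.1.1 = f.1.1)).card =
          ∑ i ∈ univ.erase f.1.1, (((star aa bb (univ : Finset (EE H)) v).filter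
            (fun e => ¬ e.1.1 = f.1.1)).filter (fun e => e.1.1 = i)).card := by
        refine card_eq_sum_card_fiberwise fun e he => ?_
        have := (mem_filter.1 he).2
        simpa using this
      rw [h3]
      refine le_trans (sum_le_sum (g := fun _ => 2) fun i _ => ?_) ?_
      · refine le_trans (card_le_card ?_) (hcnt i v)
        intro e he
        obtain ⟨he1, he2⟩ := mem_filter.1 he
        exact mem_filter.2 ⟨(mem_filter.1 he1).1, he2⟩
      · rw [sum_const, smul_eq_mul, card_erase_of_mem (mem_univ _), card_univ, mul_comm]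
    omega
  -- the third part
  have hup : ∃ v0 : V, ∀ e : EE H, (∃ v w, P.Adj v w ∧ upAt key e v ∧ upAt key f w) →
      (aa e = v0 ∨ bb e = v0) := by
    by_cases hex : ∃ v w, P.Adj v w ∧ upAt key f w
    · obtain ⟨v0, w0, h0, h1⟩ := hex
      refine ⟨v0, ?_⟩
      rintro e ⟨v, w, h2, h3, h4⟩
      have hw : w = w0 := h4.unique h1
      subst hw
      have hv : v = v0 := (Set.ncard_le_one (Set.toFinite _)).1 (hP w) v h2.symm v0 h0.symm
      rw [← hv]
      exact h3.inc
    · refine ⟨aa f, ?_⟩
      rintro e ⟨v, w, h2, _, h4⟩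
      exact absurd ⟨v, w, h2, h4⟩ hex
  obtain ⟨v0, hv0⟩ := hup
  have hsub : univ.filter (fun e => conf P key e f) ⊆
      ((star aa bb (univ : Finset (EE H)) (aa f)).filter (fun e => cl e ≠ cl f) ∪
      (star aa bb (univ : Finset (EE H)) (bb f)).filter (fun e => cl e ≠ cl f)) ∪
      star aa bb (univ : Finset (EE H)) v0 := by
    intro e he
    obtain ⟨_, hne, h1 | h1⟩ := mem_filter.1 he
    · obtain ⟨v, h2, h3⟩ := h1
      refine mem_union_left _ ?_
      rcases h3 with h3 | h3
      · refine mem_union_left _ (mem_filter.2 ⟨mem_filter.2 ⟨mem_univ _, ?_⟩, hne⟩)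
        rw [h3]; exact h2
      · refine mem_union_right _ (mem_filter.2 ⟨mem_filter.2 ⟨mem_univ _, ?_⟩, hne⟩)
        rw [h3]; exact h2
    · exact mem_union_right _ (mem_filter.2 ⟨mem_univ _, hv0 e h1⟩)
  have h1 := card_le_card hsub
  have h2 := card_union_le ((star aa bb (univ : Finset (EE H)) (aa f)).filter
    (fun e => cl e ≠ cl f) ∪ (star aa bb (univ : Finset (EE H)) (bb f)).filter
    (fun e => cl e ≠ cl f)) (star aa bb (univ : Finset (EE H)) v0)
  have h3 := card_union_le ((star aa bb (univ : Finset (EE H)) (aa f)).filter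
    (fun e => cl e ≠ cl f)) ((star aa bb (univ : Finset (EE H)) (bb f)).filter
    (fun e => cl e ≠ cl f))
  have h4 := hside (aa f) (Or.inl rfl)
  have h5 := hside (bb f) (Or.inr rfl)
  have h6 := hstar v0
  omega

end

theorem cov_matching {V κ : Type} [Finite V] [Fintype κ] (H : κ → SimpleGraph V)
    (P : SimpleGraph V) (hdeg : ∀ i v, ((H i).neighborSet v).ncard ≤ 2)
    (hP : ∀ v, (P.neighborSet v).ncard ≤ 1) (L : ℕ) (hL : 12 * Fintype.card κ ≤ L + 8)
    (hsz : ∀ i v, Cyc (H i) v → L ≤ csize (H i) v) :
    Cov (P ⊔ ⨆ i, H i) (Fintype.card κ + 1) := by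
  classical
  have := Fintype.ofFinite V
  have : Fintype (EE H) := Fintype.ofFinite (EE H)
  have : Fintype (II H) := Fintype.ofFinite (II H)
  obtain ⟨key, hk1, hk2⟩ := exists_key P hP
  -- the transversal
  obtain ⟨s, hs, hind⟩ : ∃ s : II H → EE H, (∀ c, cl (s c) = c) ∧
      ∀ c c', c ≠ c' → ¬ conf P key (s c) (s c') := by
    rcases Nat.eq_zero_or_pos (Fintype.card κ) with h0 | h0
    · have hem : IsEmpty κ := Fintype.card_eq_zero_iff.1 h0
      have : IsEmpty (II H) := ⟨fun c => hem.elim c.1.1⟩
      exact ⟨fun c => isEmptyElim c, fun c => isEmptyElim c, fun c => isEmptyElim c⟩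
    · have hLpos : 0 < L := by omega
      have hem : ∀ c : II H, ∃ g : Fin L → EE H, Function.Injective g ∧ ∀ i, cl (g i) = c := by
        intro c
        have h1 : Fintype.card (Fin L) ≤ Fintype.card {e : EE H // cl e = c} := by
          rw [Fintype.card_fin, Fintype.card_subtype, class_card]
          exact hsz _ _ c.2.1
        obtain ⟨g⟩ := Function.Embedding.nonempty_of_card_le h1
        exact ⟨fun i => (g i).1, fun i j h => g.injective (Subtype.ext h), fun i => (g i).2⟩
      choose em hem1 hem2 using hem
      have : Nonempty (Fin L) := ⟨⟨0, hLpos⟩⟩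
      obtain ⟨f, hf⟩ := Pool.Agent.H931R2.Haxell.finite (I := II H) (S := Fin L)
        (adj := fun x y => conf P key (em x.1 x.2) (em y.1 y.2))
        (fun x y h => conf_symm h) (by
          intro K hK Z hZ
          by_contra hcon
          push Not at hcon
          have hsub : K ×ˢ (univ : Finset (Fin L)) ⊆ Z.biUnion (fun z =>
              univ.filter (fun x : II H × Fin L => conf P key (em x.1 x.2) (em z.1 z.2))) := by
            intro x hx
            obtain ⟨z, hz, hz2⟩ := hcon x.1 (mem_product.1 hx).1 x.2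
            exact mem_biUnion.2 ⟨z, hz, mem_filter.2 ⟨mem_univ _, hz2⟩⟩
          have h1 := (card_le_card hsub).trans card_biUnion_le
          have h2 : ∀ z ∈ Z, (univ.filter (fun x : II H × Fin L =>
              conf P key (em x.1 x.2) (em z.1 z.2))).card ≤ 6 * Fintype.card κ - 4 := by
            intro z _
            have h3 := conf_card P hP key (em z.1 z.2)
            have h4 : (univ.filter (fun x : II H × Fin L =>
                conf P key (em x.1 x.2) (em z.1 z.2))).card ≤
                (univ.filter (fun e => conf P key e (em z.1 z.2))).card := by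
              refine card_le_card_of_injOn (fun x => em x.1 x.2) ?_ ?_
              · intro x hx
                simp only [coe_filter, mem_univ, true_and, Set.mem_ofPred_eq] at hx ⊢
                exact hx
              · rintro ⟨c, i⟩ _ ⟨c', i'⟩ _ h
                have h5 : em c i = em c' i' := h
                have h6 : c = c' := by rw [← hem2 c i, ← hem2 c' i', h5]
                subst h6
                rw [hem1 c h5]
            omega
          have h3 := h1.trans (sum_le_sum h2)
          rw [sum_const, smul_eq_mul, card_product, card_univ, Fintype.card_fin] at h3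
          have hK1 : 1 ≤ K.card := card_pos.2 hK
          have h4 : Z.card * (6 * Fintype.card κ - 4) ≤
              (2 * (K.card - 1)) * (6 * Fintype.card κ - 4) := Nat.mul_le_mul_right _ hZ
          have h5 : (2 * (K.card - 1)) * (6 * Fintype.card κ - 4) =
              (K.card - 1) * (2 * (6 * Fintype.card κ - 4)) := by ring
          have h6 : (K.card - 1) * (2 * (6 * Fintype.card κ - 4)) ≤ (K.card - 1) * L :=
            Nat.mul_le_mul_left _ (by omega)
          have h7 : K.card * L = (K.card - 1) * L + L := by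
            obtain ⟨t, ht⟩ : ∃ t, K.card = t + 1 := ⟨K.card - 1, by omega⟩
            rw [ht, Nat.add_sub_cancel]
            ring
          omega) univ
      exact ⟨fun c => em c (f c), fun c => hem2 c _, fun c c' h => hf c (mem_univ _) c'
        (mem_univ _) h⟩
  -- selected edges at a vertex
  have hselinc : ∀ v u, (selGraph aa bb s).Adj v u → ∃ c, s(aa (s c), bb (s c)) = s(v, u) := by
    rintro v u ⟨_, c, hc⟩
    refine ⟨c, ?_⟩
    rcases hc with ⟨h1, h2⟩ | ⟨h1, h2⟩
    · rw [h1, h2]
    · rw [h1, h2, Sym2.eq_swap]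
  have hselincv : ∀ v u c, s(aa (s c), bb (s c)) = s(v, u) → (aa (s c) = v ∨ bb (s c) = v) := by
    intro v u c h
    rcases Sym2.eq_iff.1 h with ⟨h1, _⟩ | ⟨_, h1⟩
    · exact Or.inl h1
    · exact Or.inr h1
  have hseluniq : ∀ v u u', (selGraph aa bb s).Adj v u → (selGraph aa bb s).Adj v u' →
      u = u' := by
    intro v u u' h h'
    obtain ⟨c, hc⟩ := hselinc v u h
    obtain ⟨c', hc'⟩ := hselinc v u' h'
    have hcc : c = c' := by
      by_contra hne
      exact hind c c' hne ⟨by rw [hs, hs]; exact hne, Or.inl ⟨v, hselincv v u c hc,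
        hselincv v u' c' hc'⟩⟩
    subst hcc
    exact Sym2.congr_right.1 (hc.symm.trans hc')
  have hPuniq : ∀ v w w', P.Adj v w → P.Adj v w' → w = w' := fun v w w' h h' =>
    (Set.ncard_le_one (Set.toFinite _)).1 (hP v) w h w' h'
  have hup : ∀ v u, (selGraph aa bb s).Adj v u → key v < key u →
      ∃ c, s(aa (s c), bb (s c)) = s(v, u) ∧ upAt key (s c) v := by
    intro v u h hlt
    obtain ⟨c, hc⟩ := hselinc v u h
    refine ⟨c, hc, ?_⟩
    rcases Sym2.eq_iff.1 hc with ⟨h1, h2⟩ | ⟨h1, h2⟩
    · exact Or.inl ⟨h1, by rw [h2]; exact hlt⟩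
    · exact Or.inr ⟨h2, by rw [h1]; exact hlt⟩
  have hQ : IsLF (P ⊔ selGraph aa bb s) := by
    constructor
    · intro v0 c hc
      -- the two neighbours on the cycle
      have two : ∀ w ∈ c.support, ∃ x y, P.Adj w x ∧ (selGraph aa bb s).Adj w y ∧ x ≠ y ∧
          x ∈ c.support ∧ y ∈ c.support := by
        intro w hw
        have h2 := hc.ncard_neighborSet_toSubgraph_eq_two hw
        obtain ⟨x, y, hxy, hset⟩ := Set.ncard_eq_two.1 h2
        have hx : c.toSubgraph.Adj w x := by
          have : x ∈ c.toSubgraph.neighborSet w := by rw [hset]; simp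
          exact this
        have hy : c.toSubgraph.Adj w y := by
          have : y ∈ c.toSubgraph.neighborSet w := by rw [hset]; simp
          exact this
        have hxs : x ∈ c.support := by
          have := hx.snd_mem
          rwa [Walk.mem_verts_toSubgraph] at this
        have hys : y ∈ c.support := by
          have := hy.snd_mem
          rwa [Walk.mem_verts_toSubgraph] at this
        rcases hx.adj_sub with hx1 | hx1 <;> rcases hy.adj_sub with hy1 | hy1
        · exact absurd (hPuniq w x y hx1 hy1) hxy
        · exact ⟨x, y, hx1, hy1, hxy, hxs, hys⟩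
        · exact ⟨y, x, hy1, hx1, hxy.symm, hys, hxs⟩
        · exact absurd (hseluniq w x y hx1 hy1) hxy
      obtain ⟨w, hw, hmin⟩ := exists_min_image c.support.toFinset key ⟨v0, by simp⟩
      have hw' : w ∈ c.support := by simpa using hw
      have hmin' : ∀ u ∈ c.support, key w ≤ key u := fun u hu => hmin u (by simpa using hu)
      obtain ⟨x, y, hx, hy, hxy, hxs, hys⟩ := two w hw'
      have hlt : key w < key y := by
        refine lt_of_le_of_ne (hmin' y hys) fun h => ?_
        rcases hk2 w y h with h1 | h1
        · exact hy.ne h1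
        · exact hxy (hPuniq w x y hx h1)
      obtain ⟨x', y', hx', hy', hxy', _, hys'⟩ := two x hxs
      have hxw : x' = w := hPuniq x x' w hx' hx.symm
      have hlt' : key x < key y' := by
        refine lt_of_le_of_ne ((hk1 w x hx) ▸ hmin' y' hys') fun h => ?_
        rcases hk2 x y' h with h1 | h1
        · exact hy'.ne h1
        · exact hxy' (hPuniq x x' y' hx' h1)
      obtain ⟨c1, hc1, hu1⟩ := hup w y hy hlt
      obtain ⟨c2, hc2, hu2⟩ := hup x y' hy' hlt'
      have hne : c1 ≠ c2 := by
        rintro rfl
        have := hc1.symm.trans hc2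
        rcases Sym2.eq_iff.1 this with ⟨h1, _⟩ | ⟨h1, _⟩
        · exact hx.ne h1
        · exact hxy' (hxw.trans h1)
      exact hind c1 c2 hne ⟨by rw [hs, hs]; exact hne, Or.inr ⟨w, x, hx, hu1, hu2⟩⟩
    · intro v
      have h1 : (P ⊔ selGraph aa bb s).neighborSet v ⊆ P.neighborSet v ∪
          (selGraph aa bb s).neighborSet v := by
        intro u hu
        rcases hu with hu | hu
        · exact Or.inl hu
        · exact Or.inr hu
      have h2 := Set.ncard_le_ncard h1 (Set.toFinite _)
      have h3 := Set.ncard_union_le (P.neighborSet v) ((selGraph aa bb s).neighborSet v)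
      have h4 : ((selGraph aa bb s).neighborSet v).ncard ≤ 1 :=
        (Set.ncard_le_one (Set.toFinite _)).2 fun u hu u' hu' => hseluniq v u u' hu hu'
      have h5 := hP v
      omega
  have hmain := assemble hdeg s hs (P ⊔ selGraph aa bb s) hQ
    (fun c => Or.inr ⟨ends_ne _, c, Or.inl ⟨rfl, rfl⟩⟩)
  have hle : selGraph aa bb s ≤ ⨆ i, H i := by
    rintro u v ⟨_, c, hc⟩
    rw [iSup_adj]
    refine ⟨(s c).1.1, ?_⟩
    rcases hc with ⟨h1, h2⟩ | ⟨h1, h2⟩
    · rw [← h1, ← h2]; exact adj_ends _
    · rw [← h1, ← h2]; exact (adj_ends _).symm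
  rwa [sup_assoc, sup_eq_right.2 hle] at hmain

end Pool.Agent.W111.LAR
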