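import Pool.Agent.W111.LAR.Sep
import Pool.Agent.W111.LAR.Odd2
import Pool.Agent.W111.LAR.Top

set_option autoImplicit false

/-!
The linear arboricity conjecture for odd degree and large girth.
-/

namespace Pool.Agent.W111.LAR

open Finset SimpleGraph H931R3.LA

theorem odd_girth_all {V : Type} [Finite V] [Nonempty V] (G : SimpleGraph V) (r : ℕ)
    (ho : Odd r) (hreg : ∀ v, (G.neighborSet v).ncard = r)
    (hcyc : ∀ (v : V) (c : G.Walk v v), c.IsCycle → 6 * r ≤ c.length + 11) :
    la G = (r + 2) / 2 := by
  classical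
  obtain ⟨k, rfl⟩ := ho
  refine la_eq_of_cov (by omega) hreg ?_
  have h3 : (2 * k + 1 + 2) / 2 = k + 1 := by omega
  rw [h3]
  rcases Nat.eq_zero_or_pos k with hk | hk
  · subst hk
    have h1 := cov_matching (fun i : Fin 0 => (⊥ : SimpleGraph V)) G (fun i => i.elim0)
      (fun v => by rw [hreg v]; omega) 0 (by simp) (fun i => i.elim0)
    simpa using h1
  · -- `R = (3 r - 5) / 2 = 3 k - 1`
    obtain ⟨P, Y, hPG, hPpos, hP1, hP2, hsep⟩ := exists_sep G (2 * k + 1) (3 * k - 1) (by omega)
      (by omega) ⟨k, rfl⟩ hreg (fun v c hc => by have := hcyc v c hc; omega)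
    have hle : G \ P ≤ G := sdiff_le
    obtain ⟨H, hH, hsup⟩ := decomp (G \ P) k (fun v => by
      have h4 : (G \ P).neighborSet v = G.neighborSet v \ P.neighborSet v := by
        ext u
        simp
      have h5 : P.neighborSet v ⊆ G.neighborSet v := fun u hu => hPG hu
      have h6 := Set.ncard_sdiff_add_ncard_of_subset h5 (Set.toFinite _)
      have h7 := hPpos v
      rw [hreg v] at h6
      rw [h4]
      omega)
    have hHG : ∀ i, H i ≤ G := fun i => (le_iSup H i).trans (hsup.le.trans hle)
    have hYY : ∀ a ∈ Y, ∀ b ∈ Y, ¬ P.Adj a b := by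
      intro a ha b hb hab
      have h4 := hsep a ha b hb hab.ne (hPG hab).toWalk
      have h5 : (hPG hab).toWalk.length = 1 := by simp [SimpleGraph.Adj.toWalk]
      omega
    have hcyc' : ∀ (v : V) (c : G.Walk v v), c.IsCycle → 12 * k - 5 ≤ c.length := by
      intro v c hc
      have := hcyc v c hc
      omega
    have htri : ∀ y a b, P.Adj y a → P.Adj y b → ∀ i, ¬ (H i).Adj a b := by
      intro y a b ha hb i hab
      have h4 := short_edge hcyc' (hHG i hab)
        (Walk.cons (hPG ha).symm (Walk.cons (hPG hb) Walk.nil))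
        (by simp only [Walk.length_cons, Walk.length_nil]; omega)
      simp only [Walk.edges_cons, Walk.edges_nil, List.mem_cons, List.not_mem_nil,
        or_false] at h4
      rcases h4 with h4 | h4
      · rcases Sym2.eq_iff.1 h4 with ⟨_, h5⟩ | ⟨h5, _⟩
        · exact hb.ne h5.symm
        · exact ha.ne h5.symm
      · rcases Sym2.eq_iff.1 h4 with ⟨h5, _⟩ | ⟨h5, _⟩
        · exact ha.ne h5.symm
        · exact hab.ne h5
    have h1 := cov_spanning H P Y hH hP1 hP2 hYY htri (12 * k - 8)
      (by rw [Fintype.card_fin]; omega) (fun i v h => by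
        obtain ⟨w, c, hc, hlen⟩ := exists_cycle h
        have h2 := hcyc w (c.mapLe (hHG i)) (hc.mapLe (hHG i))
        rw [Walk.length_mapLe] at h2
        have h4 := card_far (hH i) v h Y (2 * (3 * k - 1) + 1) (by omega)
          (fun a ha b hb hab p => by
            have := hsep a ha b hb hab (p.mapLe (hHG i))
            rwa [Walk.length_mapLe] at this)
        generalize (Y ∩ {w | (H i).Reachable v w}).ncard = m at *
        generalize csize (H i) v = n at *
        obtain ⟨j, rfl⟩ : ∃ j, k = j + 1 := ⟨k - 1, by omega⟩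
        have h5 : 2 * (3 * (j + 1) - 1) + 1 = 6 * j + 5 := by omega
        rw [h5] at h4
        rcases Nat.lt_or_ge m 2 with h6 | h6
        · omega
        · obtain ⟨q, rfl⟩ := Nat.exists_eq_add_of_le h6
          have h7 : (2 + q) * (6 * j + 5) = 12 * j + 10 + 6 * (q * j) + 5 * q := by ring
          rw [h7] at h4
          omega)
    rw [Fintype.card_fin, hsup] at h1
    have h4 : P ⊔ G \ P = G := by
      rw [sup_sdiff_self_right]
      exact sup_eq_right.2 hPG
    rwa [h4] at h1

end Pool.Agent.W111.LAR
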