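import Pool.Agent.W111.LAR.Tut
import Pool.Agent.W111.LAR.Girth

set_option autoImplicit false

/-!
Spanning subgraphs with few, pairwise distant vertices of degree two, and distant sets on cycles.
-/

namespace Pool.Agent.W111.LAR

open Finset SimpleGraph

theorem exists_sep {V : Type} [Finite V] (G : SimpleGraph V) (r R : ℕ) (hr : 3 ≤ r)
    (hR : 1 ≤ R) (hodd : Odd r) (hreg : ∀ v, (G.neighborSet v).ncard = r)
    (hcyc : ∀ (v : V) (c : G.Walk v v), c.IsCycle → 4 * R - 1 ≤ c.length) :
    ∃ (P : SimpleGraph V) (Y : Set V), P ≤ G ∧ (∀ v, 1 ≤ (P.neighborSet v).ncard) ∧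
      (∀ v, v ∉ Y → (P.neighborSet v).ncard ≤ 1) ∧ (∀ v, (P.neighborSet v).ncard ≤ 2) ∧
      ∀ a ∈ Y, ∀ b ∈ Y, a ≠ b → ∀ p : G.Walk a b, 2 * R + 1 ≤ p.length := by
  classical
  have := Fintype.ofFinite V
  let T := {K : Finset V // Mini G r K}
  have hdeep : ∀ t : T, ∃ y ∈ t.1, ∀ (w : V) (p : G.Walk y w), p.length ≤ R → w ∈ t.1 :=
    fun t => deep G r R hr hR hreg hcyc t.1 t.2.1 t.2.2.1
  choose y hy1 hy2 using hdeep
  have hsep : ∀ t t' : T, t ≠ t' → ∀ p : G.Walk (y t) (y t'), 2 * R + 1 ≤ p.length := by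
    intro t t' hne p
    by_contra hlt
    push Not at hlt
    have h1 : p.getVert R ∈ t.1 := by
      refine hy2 t _ (p.take R) ?_
      rw [Walk.take_length]
      exact min_le_left _ _
    have h2 : p.getVert R ∈ t'.1 := by
      refine hy2 t' _ (p.drop R).reverse ?_
      rw [Walk.length_reverse, Walk.drop_length]
      omega
    have h3 := mini_disj G t.2 t'.2 (fun h => hne (Subtype.ext h))
    exact Finset.disjoint_left.1 h3 h1 h2
  have hinj : Function.Injective y := by
    intro t t' h
    by_contra hne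
    have := hsep t t' hne ((Walk.nil : G.Walk (y t) (y t)).copy rfl h)
    rw [Walk.length_copy, Walk.length_nil] at this
    omega
  have hnadj : ∀ t t', ¬ G.Adj (y t) (y t') := by
    intro t t' h
    have hne : t ≠ t' := by
      rintro rfl
      exact G.irrefl h
    have := hsep t t' hne h.toWalk
    have h1 : h.toWalk.length = 1 := by simp [SimpleGraph.Adj.toWalk]
    omega
  let p : ℕ := (Nat.card V + Nat.card T) % 2
  have hev : Even (Nat.card (V ⊕ (T ⊕ Fin p))) := by
    rw [Nat.card_sum, Nat.card_sum, Nat.card_fin, Nat.even_iff]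
    omega
  obtain ⟨M, hM⟩ := twin_pm G y p r (by omega) hreg hev (by
    intro X hX hc
    obtain ⟨K, hKX, hK⟩ := exists_mini G hX hc
    refine ⟨⟨K, hK⟩, hKX (hy1 _), ?_⟩
    have h1 : (G.neighborSet (y ⟨K, hK⟩)).Nonempty := by
      rw [← Set.ncard_pos (Set.toFinite _), hreg]
      omega
    obtain ⟨v, hv⟩ := h1
    have hv' : G.Adj (y ⟨K, hK⟩) v := hv
    refine ⟨v, hKX (hy2 ⟨K, hK⟩ v hv'.toWalk ?_), hv'⟩
    simp only [SimpleGraph.Adj.toWalk, Walk.length_cons, Walk.length_nil]
    omega)
  obtain ⟨P, hP1, hP2, hP3, hP4⟩ := exists_P G y p M hM hinj hnadj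
  refine ⟨P, Set.range y, hP1, hP2, hP3, hP4, ?_⟩
  rintro _ ⟨t, rfl⟩ _ ⟨t', rfl⟩ hne q
  exact hsep t t' (fun h => hne (by rw [h])) q

/-- A cyclic component is a cycle. -/
theorem exists_cyc {V : Type} [Finite V] {H : SimpleGraph V} (hdeg : ∀ v, (H.neighborSet v).ncard ≤ 2)
    {x : V} (hx : Cyc H x) :
    ∃ f : ℕ → V, (∀ a, H.Adj (f a) (f (a + 1))) ∧ (∀ a b, f a = f b ↔ a % csize H x = b % csize H x) ∧
      ∀ u, H.Reachable x u ↔ ∃ a < csize H x, f a = u := by
  classical
  have := Fintype.ofFinite V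
  obtain ⟨w, c, hc, hxw⟩ : ∃ (w : V) (c : H.Walk w w), c.IsCycle ∧ H.Reachable x w := by
    let K : Set V := {w | H.Reachable x w}
    let T := H.induce K
    have hdegT : ∀ y : K, (T.neighborSet y).ncard = 2 := by
      intro y
      rw [← hx y.1 y.2]
      have : (Subtype.val '' (T.neighborSet y)) = H.neighborSet y.1 := by
        ext w
        constructor
        · rintro ⟨z, hz, rfl⟩
          exact hz
        · intro hw
          exact ⟨⟨w, (y.2 : H.Reachable x y.1).trans (SimpleGraph.Adj.reachable hw)⟩, hw, rfl⟩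
      rw [← this, Set.ncard_image_of_injective _ Subtype.val_injective]
    have hnot : ¬ T.IsAcyclic := by
      intro hac
      obtain ⟨y, hy⟩ := H931R3.LA.exists_end T ⟨hac, fun y => (hdegT y).le⟩ ⟨x, Reachable.refl x⟩
      rw [hdegT y] at hy
      omega
    unfold SimpleGraph.IsAcyclic at hnot
    push Not at hnot
    obtain ⟨y, c, hc⟩ := hnot
    exact ⟨_, c.map (Embedding.induce (G := H) K).toHom,
      hc.map (Embedding.induce (G := H) K).injective, y.2⟩
  have hn3 : 3 ≤ c.length := hc.three_le_length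
  have hsupp : ∀ u, H.Reachable x u → u ∈ c.support := fun u hu =>
    (closed_cycle le_rfl hdeg hc u (hxw.symm.trans hu)).1
  set n := c.length with hn
  let f : ℕ → V := fun a => c.getVert (a % n)
  have hfadj : ∀ a, H.Adj (f a) (f (a + 1)) := by
    intro a
    have h1 : a % n < n := Nat.mod_lt _ (by omega)
    have h2 := c.adj_getVert_succ (i := a % n) h1
    have h3 : f (a + 1) = c.getVert (a % n + 1) := by
      show c.getVert ((a + 1) % n) = _
      rw [Nat.add_mod, Nat.mod_eq_of_lt (show 1 < n by omega)]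
      by_cases h4 : a % n + 1 < n
      · rw [Nat.mod_eq_of_lt h4]
      · have h5 : a % n + 1 = n := by omega
        rw [h5, Nat.mod_self, Walk.getVert_zero, hn, Walk.getVert_length]
    rw [h3]
    exact h2
  have hfinj : ∀ a b, f a = f b ↔ a % n = b % n := by
    intro a b
    constructor
    · intro h
      have h1 : a % n < n := Nat.mod_lt _ (by omega)
      have h2 : b % n < n := Nat.mod_lt _ (by omega)
      exact hc.getVert_injOn' (by rw [Set.mem_ofPred_eq]; omega)
        (by rw [Set.mem_ofPred_eq]; omega) h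
    · intro h
      show c.getVert (a % n) = c.getVert (b % n)
      rw [h]
  have hfx : ∀ a, H.Reachable x (f a) := by
    intro a
    refine hxw.trans ?_
    exact (c.take (a % n)).reachable
  have hfsur : ∀ u, H.Reachable x u → ∃ a < n, f a = u := by
    intro u hu
    obtain ⟨i, hi, hin⟩ := Walk.mem_support_iff_exists_getVert.1 (hsupp u hu)
    by_cases h4 : i < n
    · refine ⟨i, h4, ?_⟩
      show c.getVert (i % n) = u
      rw [Nat.mod_eq_of_lt h4, hi]
    · have h5 : i = n := by omega
      refine ⟨0, by omega, ?_⟩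
      show c.getVert (0 % n) = u
      rw [Nat.zero_mod, Walk.getVert_zero, ← hi, h5, hn, Walk.getVert_length]
  have hcs : csize H x = n := by
    have h1 : {u | H.Reachable x u} = f '' (↑(Finset.range n) : Set ℕ) := by
      ext u
      constructor
      · intro hu
        obtain ⟨a, ha, hfa⟩ := hfsur u hu
        exact ⟨a, by simpa using ha, hfa⟩
      · rintro ⟨a, _, rfl⟩
        exact hfx a
    rw [csize, h1, Set.ncard_image_of_injOn, Set.ncard_coe_finset, Finset.card_range]
    intro a ha b hb hab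
    have ha' : a < n := by simpa using ha
    have hb' : b < n := by simpa using hb
    have := (hfinj a b).1 hab
    rwa [Nat.mod_eq_of_lt ha', Nat.mod_eq_of_lt hb'] at this
  rw [hcs]
  refine ⟨f, hfadj, hfinj, fun u => ⟨hfsur u, ?_⟩⟩
  rintro ⟨a, _, rfl⟩
  exact hfx a

/-- Pairwise distant vertices on a cyclic component. -/
theorem card_far {V : Type} [Finite V] {H : SimpleGraph V}
    (hdeg : ∀ v, (H.neighborSet v).ncard ≤ 2) (x : V) (hx : Cyc H x) (Y : Set V) (t : ℕ)
    (ht : t ≤ csize H x) (hfar : ∀ a ∈ Y, ∀ b ∈ Y, a ≠ b → ∀ p : H.Walk a b, t ≤ p.length) :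
    (Y ∩ {w | H.Reachable x w}).ncard * t ≤ csize H x := by
  classical
  have := Fintype.ofFinite V
  obtain ⟨f, hf1, hf2, hf3⟩ := exists_cyc hdeg hx
  set n := csize H x with hn
  have hnpos : 0 < n := csize_pos H x
  have hwalk : ∀ k a, ∃ p : H.Walk (f a) (f (a + k)), p.length = k := by
    intro k
    induction k with
    | zero => intro a; exact ⟨Walk.nil, rfl⟩
    | succ k ih =>
      intro a
      obtain ⟨p, hp⟩ := ih (a + 1)
      refine ⟨Walk.cons (hf1 a) (p.copy rfl (by congr 1; omega)), ?_⟩
      rw [Walk.length_cons, Walk.length_copy, hp]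
  have hpos : ∀ u : V, ∃ a, H.Reachable x u → f a = u := by
    intro u
    by_cases hu : H.Reachable x u
    · obtain ⟨a, _, ha⟩ := (hf3 u).1 hu
      exact ⟨a, fun _ => ha⟩
    · exact ⟨0, fun h => absurd h hu⟩
  choose pos hpos using hpos
  set S : Finset V := (Y ∩ {w | H.Reachable x w}).toFinset with hS
  have hSm : ∀ u, u ∈ S ↔ u ∈ Y ∧ H.Reachable x u := fun u => by
    rw [hS, Set.mem_toFinset]
    exact Iff.rfl
  have hle : (S ×ˢ Finset.range t).card ≤ (Finset.range n).card := by
    refine card_le_card_of_injOn (fun z => (pos z.1 + z.2) % n) ?_ ?_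
    · intro z _
      have := Nat.mod_lt (pos z.1 + z.2) hnpos
      simpa using this
    · have key : ∀ u a u' a', u ∈ S → u' ∈ S → a' < t → a ≤ a' →
          (pos u + a) % n = (pos u' + a') % n → u = u' ∧ a = a' := by
        intro u a u' a' hu hu' ha' haa h
        obtain ⟨k, rfl⟩ := Nat.exists_eq_add_of_le haa
        have h1 : (pos u) ≡ (pos u' + k) [MOD n] := by
          have h2 : pos u + a ≡ (pos u' + k) + a [MOD n] := by
            have h3 : pos u' + k + a = pos u' + (a + k) := by ring
            rw [h3]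
            exact h
          exact Nat.ModEq.add_right_cancel' a h2
        have h4 : f (pos u) = f (pos u' + k) := (hf2 _ _).2 h1
        have huu : u = u' := by
          by_contra hne
          obtain ⟨p, hp⟩ := hwalk k (pos u')
          have h5 := hfar u' ((hSm u').1 hu').1 u ((hSm u).1 hu).1 (fun h => hne h.symm)
            (p.copy (hpos u' ((hSm u').1 hu').2) (by rw [← h4, hpos u ((hSm u).1 hu).2]))
          rw [Walk.length_copy, hp] at h5
          omega
        refine ⟨huu, ?_⟩
        subst huu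
        have h6 : 0 ≡ k [MOD n] := by
          have h7 : pos u + 0 ≡ pos u + k [MOD n] := h1
          exact Nat.ModEq.add_left_cancel' (pos u) h7
        have h8 : k = 0 := by
          have h9 : k % n = 0 := h6.symm
          rw [Nat.mod_eq_of_lt (by omega)] at h9
          exact h9
        omega
      rintro ⟨u, a⟩ hz ⟨u', a'⟩ hz' h
      rw [mem_coe, mem_product] at hz hz'
      have ha := mem_range.1 hz.2
      have ha' := mem_range.1 hz'.2
      rcases le_total a a' with haa | haa
      · obtain ⟨h1, h2⟩ := key u a u' a' hz.1 hz'.1 ha' haa h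
        exact Prod.ext h1 h2
      · obtain ⟨h1, h2⟩ := key u' a' u a hz'.1 hz.1 ha haa h.symm
        exact Prod.ext h1.symm h2.symm
  rw [card_product, card_range, card_range] at hle
  rwa [Set.ncard_eq_toFinset_card', ← hS]

end Pool.Agent.W111.LAR
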