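import Pool.Agent.W111.LAR.Cut
import Pool.Agent.Helper879.ECD.Tutte

set_option autoImplicit false

/-!
Regular graphs: spanning subgraphs all of whose components are edges, or paths with three vertices
with prescribed centres, from the theorem of Tutte applied to the graph with twins of the centres.
-/

namespace Pool.Agent.W111.LAR

open Finset SimpleGraph Pool.Agent.Helper879.ECD

section ext

variable {V T : Type} (G : SimpleGraph V) (y : T → V) (p : ℕ)

/-- Adjacency with twins. -/
def twinAdj : V ⊕ (T ⊕ Fin p) → V ⊕ (T ⊕ Fin p) → Prop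
  | .inl u, .inl v => G.Adj u v
  | .inl u, .inr (.inl t) => G.Adj (y t) u
  | .inr (.inl t), .inl u => G.Adj (y t) u
  | .inl _, .inr (.inr _) => False
  | .inr (.inr _), .inl _ => False
  | .inr a, .inr b => a ≠ b

/-- `G` with a twin for every `y t`; the twins and `p` further vertices form a clique. -/
def twinG : SimpleGraph (V ⊕ (T ⊕ Fin p)) where
  Adj a b := twinAdj G y p a b
  symm.symm a b h := by
    rcases a with u | t | i <;> rcases b with v | t' | j <;> simp only [twinAdj] at h ⊢ <;>
      first | exact h.symm | exact h | exact Ne.symm h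
  loopless.irrefl a h := by
    rcases a with u | t | i <;> simp only [twinAdj] at h
    · exact G.irrefl h
    · exact h rfl
    · exact h rfl

theorem twin_pm [Fintype V] [DecidableEq V] [DecidableRel G.Adj] [Finite T] (r : ℕ) (hr : 1 ≤ r)
    (hreg : ∀ v, (G.neighborSet v).ncard = r) (hev : Even (Nat.card (V ⊕ (T ⊕ Fin p))))
    (hX : ∀ X : Finset V, X.Nonempty → cut G X < r → ∃ t, y t ∈ X ∧ ∃ v ∈ X, G.Adj (y t) v) :
    ∃ M : (twinG G y p).Subgraph, M.IsPerfectMatching := by
  classical
  have := Fintype.ofFinite T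
  by_contra hno
  obtain ⟨U, hU, _⟩ := exists_min_barrier hev hno
  set H := twinG G y p with hH
  set XX : Finset (Finset V) :=
    univ.filter (fun X => OddComp H U (Sum.inl '' (X : Set V))) with hXX
  have hcount : {Z | OddComp H U Z}.ncard ≤ XX.card + 1 := by
    have hsub : {Z | OddComp H U Z} ⊆ ((fun X : Finset V => (Sum.inl '' (X : Set V) :
        Set (V ⊕ (T ⊕ Fin p)))) '' (XX : Set (Finset V))) ∪
        {Z | OddComp H U Z ∧ ∃ a, Sum.inr a ∈ Z} := by
      intro Z hZ
      by_cases h : ∃ a, Sum.inr a ∈ Z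
      · exact Or.inr ⟨hZ, h⟩
      · left
        push Not at h
        have hZe : Sum.inl '' ((univ.filter (fun v => (Sum.inl v : V ⊕ (T ⊕ Fin p)) ∈ Z) :
            Finset V) : Set V) = Z := by
          ext a
          constructor
          · rintro ⟨v, hv, rfl⟩
            simpa using hv
          · intro ha
            rcases a with v | a
            · exact ⟨v, by simpa using ha, rfl⟩
            · exact absurd ha (h a)
        refine ⟨univ.filter (fun v => (Sum.inl v : V ⊕ (T ⊕ Fin p)) ∈ Z), ?_, hZe⟩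
        rw [mem_coe, hXX, mem_filter]
        refine ⟨mem_univ _, ?_⟩
        rw [hZe]
        exact hZ
    refine (Set.ncard_le_ncard hsub (Set.toFinite _)).trans ((Set.ncard_union_le _ _).trans ?_)
    have h1 := Set.ncard_image_le (f := fun X : Finset V => (Sum.inl '' (X : Set V) :
        Set (V ⊕ (T ⊕ Fin p)))) (s := (XX : Set (Finset V))) (Set.toFinite _)
    rw [Set.ncard_coe_finset] at h1
    have h2 : {Z | OddComp H U Z ∧ ∃ a, Sum.inr a ∈ Z}.ncard ≤ 1 := by
      rw [Set.ncard_le_one (Set.toFinite _)]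
      rintro Z ⟨hZ, a, ha⟩ Z' ⟨hZ', b, hb⟩
      by_cases hab : a = b
      · subst hab
        exact hZ.eq_of_mem hZ' ha hb
      · have hadj : H.Adj (Sum.inr a) (Sum.inr b) := by
          rcases a with a | a <;> rcases b with b | b <;> exact hab
        exact hZ.eq_of_mem hZ' (hZ.closed ha (hZ'.notMem hb) hadj) hb
    omega
  have hmemXX : ∀ X, X ∈ XX ↔ OddComp H U (Sum.inl '' (X : Set V)) := fun X => by
    rw [hXX, mem_filter]
    exact ⟨fun h => h.2, fun h => ⟨mem_univ _, h⟩⟩
  have hne : ∀ X ∈ XX, X.Nonempty := by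
    intro X hXm
    have h1 := ((hmemXX X).1 hXm).2
    rw [nonempty_iff_ne_empty]
    rintro rfl
    simp at h1
  have hdisj : ∀ X ∈ XX, ∀ X' ∈ XX, ∀ v, v ∈ X → v ∈ X' → X = X' := by
    intro X hXm X' hXm' v hv hv'
    have h1 := ((hmemXX X).1 hXm).eq_of_mem ((hmemXX X').1 hXm') (z := Sum.inl v)
      ⟨v, by exact_mod_cast hv, rfl⟩ ⟨v, by exact_mod_cast hv', rfl⟩
    have h2 := Set.image_injective.2 (Sum.inl_injective (α := V) (β := T ⊕ Fin p)) h1
    exact_mod_cast h2
  set UV : Finset V := univ.filter (fun v => (Sum.inl v : V ⊕ (T ⊕ Fin p)) ∈ U) with hUV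
  set UT : Finset T := univ.filter (fun t => (Sum.inr (Sum.inl t) : V ⊕ (T ⊕ Fin p)) ∈ U) with hUT
  have hUcard : UV.card + UT.card ≤ U.ncard := by
    have h1 : (UV.disjSum UT).card = UV.card + UT.card := card_disjSum _ _
    rw [← h1, ← Set.ncard_coe_finset]
    refine Set.ncard_le_ncard_of_injOn
      (fun x : V ⊕ T => (match x with
        | .inl v => Sum.inl v
        | .inr t => Sum.inr (Sum.inl t) : V ⊕ (T ⊕ Fin p))) ?_ ?_ (Set.toFinite _)
    · rintro (v | t) hx
      · have : v ∈ UV := by simpa using hx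
        exact (mem_filter.1 this).2
      · have : t ∈ UT := by simpa using hx
        exact (mem_filter.1 this).2
    · rintro (v | t) _ (v' | t') _ h
      · have := Sum.inl.inj h
        rw [this]
      · cases h
      · cases h
      · have := Sum.inl.inj (Sum.inr.inj h)
        rw [this]
  -- few components with small boundary
  have hB : (XX.filter (fun X => ¬ r ≤ cut G X)).card ≤ UT.card := by
    have hch : ∀ X ∈ XX.filter (fun X => ¬ r ≤ cut G X), ∃ t, y t ∈ X ∧ t ∈ UT := by
      intro X hXm
      obtain ⟨h1, h2⟩ := mem_filter.1 hXm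
      obtain ⟨t, ht, v, hv, hadj⟩ := hX X (hne X h1) (by omega)
      refine ⟨t, ht, mem_filter.2 ⟨mem_univ _, ?_⟩⟩
      by_contra hn
      have h3 := ((hmemXX X).1 h1).closed (z := Sum.inl v) (y := Sum.inr (Sum.inl t))
        ⟨v, by exact_mod_cast hv, rfl⟩ hn hadj
      obtain ⟨w, _, hw⟩ := h3
      cases hw
    choose! tt ht1 ht2 using hch
    rw [← card_attach]
    refine card_le_card_of_injOn (fun X => tt X.1 X.2) (fun X _ => ht2 X.1 X.2) ?_
    intro X _ X' _ h
    have h' : tt X.1 X.2 = tt X'.1 X'.2 := h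
    refine Subtype.ext (hdisj X.1 (mem_filter.1 X.2).1 X'.1 (mem_filter.1 X'.2).1
      (y (tt X.1 X.2)) (ht1 X.1 X.2) ?_)
    rw [h']
    exact ht1 X'.1 X'.2
  have hA : (XX.filter (fun X => r ≤ cut G X)).card ≤ UV.card := by
    have h1 : (XX.filter (fun X => r ≤ cut G X)).card * r ≤ UV.card * r := by
      calc (XX.filter (fun X => r ≤ cut G X)).card * r
          = ∑ X ∈ XX.filter (fun X => r ≤ cut G X), r := by rw [sum_const, smul_eq_mul]
        _ ≤ ∑ X ∈ XX.filter (fun X => r ≤ cut G X), cut G X :=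
            sum_le_sum fun X hXm => (mem_filter.1 hXm).2
        _ ≤ ∑ X ∈ XX, cut G X := sum_le_sum_of_subset (filter_subset _ _)
        _ ≤ ∑ X ∈ XX, ∑ u ∈ X, ∑ v ∈ UV, (if G.Adj u v then 1 else 0) := by
            refine sum_le_sum fun X hXm => ?_
            unfold cut wt
            refine sum_le_sum fun u hu => ?_
            rw [← sum_filter, ← sum_filter]
            refine sum_le_sum_of_subset ?_
            intro v hv
            obtain ⟨h2, h3⟩ := mem_filter.1 hv
            refine mem_filter.2 ⟨mem_filter.2 ⟨mem_univ _, ?_⟩, h3⟩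
            by_contra hn
            have h4 := ((hmemXX X).1 hXm).closed (z := Sum.inl u) (y := Sum.inl v)
              ⟨u, by exact_mod_cast hu, rfl⟩ hn h3
            obtain ⟨w, hw, hw'⟩ := h4
            have h5 := Sum.inl.inj hw'
            subst h5
            exact (mem_compl.1 h2) (by exact_mod_cast hw)
        _ = ∑ u ∈ XX.biUnion id, ∑ v ∈ UV, (if G.Adj u v then 1 else 0) := by
            rw [sum_biUnion]
            · rfl
            · intro X hXm X' hXm' hne'
              rw [Function.onFun, Finset.disjoint_left]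
              intro v hv hv'
              exact hne' (hdisj X hXm X' hXm' v hv hv')
        _ ≤ ∑ u, ∑ v ∈ UV, (if G.Adj u v then 1 else 0) :=
            sum_le_sum_of_subset (subset_univ _)
        _ = ∑ v ∈ UV, ∑ u, (if G.Adj u v then 1 else 0) := sum_comm
        _ = ∑ v ∈ UV, r := by
            refine sum_congr rfl fun v _ => ?_
            rw [← card_filter, ← hreg v, Set.ncard_eq_toFinset_card']
            congr 1
            ext u
            simp [G.adj_comm]
        _ = UV.card * r := by rw [sum_const, smul_eq_mul]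
    exact Nat.le_of_mul_le_mul_right h1 (by omega)
  have hAB : (XX.filter (fun X => r ≤ cut G X)).card +
      (XX.filter (fun X => ¬ r ≤ cut G X)).card = XX.card := card_filter_add_card_filter_not _
  omega

/-- The spanning subgraph obtained from a perfect matching of the graph with twins. -/
theorem exists_P [Finite V] (M : (twinG G y p).Subgraph) (hM : M.IsPerfectMatching)
    (hy : Function.Injective y) (hsep : ∀ t t', ¬ G.Adj (y t) (y t')) :
    ∃ P : SimpleGraph V, P ≤ G ∧ (∀ v, 1 ≤ (P.neighborSet v).ncard) ∧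
      (∀ v, v ∉ Set.range y → (P.neighborSet v).ncard ≤ 1) ∧
      ∀ v, (P.neighborSet v).ncard ≤ 2 := by
  classical
  have huniq : ∀ a b b', M.Adj a b → M.Adj a b' → b = b' := by
    intro a b b' h h'
    exact (hM.1 (hM.2 a)).unique h h'
  have hex : ∀ a, ∃ b, M.Adj a b := fun a => (hM.1 (hM.2 a)).exists
  let P : SimpleGraph V :=
    { Adj := fun u v => M.Adj (Sum.inl u) (Sum.inl v) ∨
        (∃ t, y t = v ∧ M.Adj (Sum.inl u) (Sum.inr (Sum.inl t))) ∨
        (∃ t, y t = u ∧ M.Adj (Sum.inl v) (Sum.inr (Sum.inl t)))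
      symm := ⟨by
        rintro u v (h | h | h)
        · exact Or.inl h.symm
        · exact Or.inr (Or.inr h)
        · exact Or.inr (Or.inl h)⟩
      loopless := ⟨by
        rintro u (h | ⟨t, h1, h2⟩ | ⟨t, h1, h2⟩)
        · exact G.irrefl (show G.Adj u u from M.adj_sub h)
        · have h3 : G.Adj (y t) u := M.adj_sub h2
          rw [h1] at h3
          exact G.irrefl h3
        · have h3 : G.Adj (y t) u := M.adj_sub h2
          rw [h1] at h3
          exact G.irrefl h3⟩ }
  have hPG : P ≤ G := by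
    rintro u v (h | ⟨t, h1, h2⟩ | ⟨t, h1, h2⟩)
    · exact M.adj_sub h
    · have h3 : G.Adj (y t) u := M.adj_sub h2
      rw [h1] at h3
      exact h3.symm
    · have h3 : G.Adj (y t) v := M.adj_sub h2
      rw [h1] at h3
      exact h3
  refine ⟨P, hPG, ?_, ?_, ?_⟩
  · intro v
    refine (Set.ncard_pos (Set.toFinite _)).2 ?_
    obtain ⟨b, hb⟩ := hex (Sum.inl v)
    rcases b with w | t | i
    · exact ⟨w, Or.inl hb⟩
    · exact ⟨y t, Or.inr (Or.inl ⟨t, rfl, hb⟩)⟩
    · exact absurd (show False from M.adj_sub hb) (fun h => h)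
  · intro v hv
    rw [Set.ncard_le_one (Set.toFinite _)]
    have key : ∀ w, P.Adj v w → M.Adj (Sum.inl v) (Sum.inl w) ∨
        ∃ t, y t = w ∧ M.Adj (Sum.inl v) (Sum.inr (Sum.inl t)) := by
      rintro w (h | h | ⟨t, h1, _⟩)
      · exact Or.inl h
      · exact Or.inr h
      · exact absurd ⟨t, h1⟩ hv
    intro w hw w' hw'
    rcases key w hw with h | ⟨t, h1, h2⟩ <;> rcases key w' hw' with h' | ⟨t', h1', h2'⟩
    · exact Sum.inl.inj (huniq _ _ _ h h')
    · cases huniq _ _ _ h h2'
    · cases huniq _ _ _ h2 h'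
    · have h3 := Sum.inl.inj (Sum.inr.inj (huniq _ _ _ h2 h2'))
      rw [← h1, ← h1', h3]
  · intro v
    by_cases hv : v ∈ Set.range y
    · obtain ⟨t0, rfl⟩ := hv
      have hsub : P.neighborSet (y t0) ⊆ {w | M.Adj (Sum.inl (y t0)) (Sum.inl w)} ∪
          {w | M.Adj (Sum.inl w) (Sum.inr (Sum.inl t0))} := by
        rintro w (h | ⟨t, h1, h2⟩ | ⟨t, h1, h2⟩)
        · exact Or.inl h
        · exfalso
          exact hsep t t0 (M.adj_sub h2)
        · right
          rw [← hy h1]
          exact h2
      refine (Set.ncard_le_ncard hsub (Set.toFinite _)).trans ((Set.ncard_union_le _ _).trans ?_)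
      have h1 : {w | M.Adj (Sum.inl (y t0)) (Sum.inl w)}.ncard ≤ 1 := by
        rw [Set.ncard_le_one (Set.toFinite _)]
        intro w hw w' hw'
        exact Sum.inl.inj (huniq _ _ _ hw hw')
      have h2 : {w | M.Adj (Sum.inl w) (Sum.inr (Sum.inl t0))}.ncard ≤ 1 := by
        rw [Set.ncard_le_one (Set.toFinite _)]
        intro w hw w' hw'
        exact Sum.inl.inj (huniq _ _ _ (Subgraph.Adj.symm hw) (Subgraph.Adj.symm hw'))
      omega
    · have h1 : (P.neighborSet v).ncard ≤ 1 := by
        rw [Set.ncard_le_one (Set.toFinite _)]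
        have key : ∀ w, P.Adj v w → M.Adj (Sum.inl v) (Sum.inl w) ∨
            ∃ t, y t = w ∧ M.Adj (Sum.inl v) (Sum.inr (Sum.inl t)) := by
          rintro w (h | h | ⟨t, h1, _⟩)
          · exact Or.inl h
          · exact Or.inr h
          · exact absurd ⟨t, h1⟩ hv
        intro w hw w' hw'
        rcases key w hw with h | ⟨t, h1, h2⟩ <;> rcases key w' hw' with h' | ⟨t', h1', h2'⟩
        · exact Sum.inl.inj (huniq _ _ _ h h')
        · cases huniq _ _ _ h h2'
        · cases huniq _ _ _ h2 h'
        · have h3 := Sum.inl.inj (Sum.inr.inj (huniq _ _ _ h2 h2'))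
          rw [← h1, ← h1', h3]
      omega

end ext

end Pool.Agent.W111.LAR
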